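import Pool.Agent.helper4.HL.Spec

/-!
# HL, module BMP: the bump argument
-/

open scoped BigOperators ComplexOrder ComplexConjugate Topology

namespace Pool.Agent.HL

open Pool.Agent.helper86.CM Pool.Agent.QS Filter MeasureTheory

/-- A continuous function on the torus is integrable. -/
theorem BMP_int (μ : Measure T2) [IsFiniteMeasure μ] (f : T2 → ℝ) (hf : Continuous f) :
    Integrable f μ :=
  hf.integrable_of_hasCompactSupport (HasCompactSupport.of_compactSpace f)

/-- The volume of the circle is a probability measure. -/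
theorem BMP_prob1 : IsProbabilityMeasure (volume : Measure UnitAddCircle) :=
  ⟨by rw [AddCircle.measure_univ]; simp⟩

/-- The volume of the torus is a probability measure. -/
theorem BMP_prob : IsProbabilityMeasure (volume : Measure T2) := by
  have := BMP_prob1
  have h : ∀ _ : Fin 1 ⊕ Fin 1, IsProbabilityMeasure (volume : Measure UnitAddCircle) :=
    fun _ => BMP_prob1
  infer_instance

/-- The elementary inequality. -/
theorem BMP_ineq (b q r : ℝ) (hr0 : 0 ≤ r) (hr1 : r ≤ 1) (hq : q ≤ r ^ 2)
    (h : 2 * (b - q) ^ 2 ≤ b + r ^ 2) : b ≤ 1 / 2 + 4 * r := by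
  by_contra hb
  push Not at hb
  have h1 : r ^ 2 ≤ r := by nlinarith
  have h2 : 0 ≤ b - r := by linarith
  have h3 : b - r ≤ b - q := by linarith
  have h4 : (b - r) ^ 2 ≤ (b - q) ^ 2 := by
    apply pow_le_pow_left₀ h2 h3
  nlinarith [mul_nonneg hr0 (sub_nonneg.2 hb.le), sq_nonneg (b - 1 / 2 - 4 * r), sq_nonneg r]

theorem BMP (hM : MKC_stmt) : BMP_stmt := by
  intro μ hμ hC g hg hg0 g0 δ η hδ hδg hη0 hη1 hI
  have hP : IsProbabilityMeasure (volume : Measure T2) := BMP_prob
  have hd2 : 0 < δ / 2 := by positivity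
  set f : T2 → ℝ := fun y => max 0 (min 1 (2 - |g y - g0| / (δ / 2))) with hfdef
  have hfc : Continuous f := by
    rw [hfdef]
    fun_prop
  have hf0 : ∀ y, 0 ≤ f y := fun y => le_max_left _ _
  have hf1 : ∀ y, f y ≤ 1 := fun y => max_le zero_le_one (min_le_left _ _)
  have hA : ∀ y, 1 - f y ≤ (g y - g0) ^ 2 * ((δ / 2) ^ 2)⁻¹ := by
    intro y
    have e1 : (g y - g0) ^ 2 * ((δ / 2) ^ 2)⁻¹ = (|g y - g0| / (δ / 2)) ^ 2 := by
      rw [div_pow (|g y - g0|), sq_abs, ← div_eq_mul_inv]
    rw [e1]
    clear e1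
    set w := |g y - g0| / (δ / 2) with hw
    have hw0 : 0 ≤ w := by positivity
    by_cases hle : w ≤ 1
    · have : f y = 1 := by
        simp only [hfdef, ← hw]
        rw [min_eq_left (by linarith), max_eq_right zero_le_one]
      rw [this]
      nlinarith [sq_nonneg w]
    · push Not at hle
      have := hf0 y
      nlinarith
  have hB : ∀ y, (g0 - δ) * f y ≤ g y := by
    intro y
    have hnn : 0 ≤ g0 - δ := by linarith
    by_cases hle : |g y - g0| ≤ δ
    · have := (abs_le.1 hle).1
      have h1 := hf1 y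
      nlinarith
    · push Not at hle
      have : f y = 0 := by
        simp only [hfdef]
        apply max_eq_left
        refine le_trans (min_le_right _ _) ?_
        have : 2 < |g y - g0| / (δ / 2) := by
          rw [lt_div_iff₀ hd2]
          linarith
        linarith
      rw [this, mul_zero]
      exact hg0 y
  have ifv : Integrable f (volume : Measure T2) := BMP_int _ f hfc
  have ifm : Integrable f μ := BMP_int _ f hfc
  set v : ℝ := ∫ y, f y with hv
  set a : ℝ := ∫ y, f y ∂μ with ha
  have hq : 1 - v ≤ η := by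
    have e1 : ∫ y : T2, (1 - f y) = 1 - v := by
      rw [integral_sub (integrable_const _) ifv, hv]
      simp
    rw [← e1]
    have e2 : ∫ y : T2, (1 - f y) ≤ ∫ y : T2, (g y - g0) ^ 2 * ((δ / 2) ^ 2)⁻¹ := by
      apply integral_mono
      · exact (integrable_const _).sub ifv
      · apply BMP_int
        fun_prop
      · exact hA
    refine e2.trans ?_
    rw [integral_mul_const]
    have h3 : 0 < (δ / 2) ^ 2 := by positivity
    rw [← div_eq_mul_inv, div_le_iff₀ h3]
    exact hI
  have hv1 : v ≤ 1 := by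
    have : ∫ y, f y ≤ ∫ y : T2, (1 : ℝ) := integral_mono ifv (integrable_const _) hf1
    simpa using this
  have hmk := hM μ hμ hC f hfc
  rw [← hv, ← ha] at hmk
  have hsq : ∫ y, (f y - v) ^ 2 ∂μ ≤ (1 - a) + η := by
    have e0 : ∫ y, (1 - f y) ∂μ = 1 - a := by
      rw [integral_sub (integrable_const _) ifm, ← ha]
      simp
    have i0 : Integrable (fun y => 1 - f y) μ := (integrable_const _).sub ifm
    have e1 : ∫ y, ((1 - f y) + η) ∂μ = (1 - a) + η := by
      rw [integral_add i0 (integrable_const _), e0]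
      simp
    rw [← e1]
    apply integral_mono
    · apply BMP_int
      fun_prop
    · exact i0.add (integrable_const _)
    · intro y
      have h0 := hf0 y
      have h1 := hf1 y
      show (f y - v) ^ 2 ≤ 1 - f y + η
      have p0 : 0 ≤ 1 - f y := by linarith
      have q0 : 0 ≤ 1 - v := by linarith
      nlinarith [mul_nonneg p0 q0, mul_nonneg p0 h0, mul_le_mul hq hq q0 hη0,
        mul_nonneg hη0 (sub_nonneg.2 hη1)]
  have hr := Real.sq_sqrt hη0
  have hr0 := Real.sqrt_nonneg η
  have hr1 : Real.sqrt η ≤ 1 := by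
    rw [show (1 : ℝ) = Real.sqrt 1 from Real.sqrt_one.symm]
    exact Real.sqrt_le_sqrt hη1
  have hb : 1 - a ≤ 1 / 2 + 4 * Real.sqrt η := by
    apply BMP_ineq (1 - a) (1 - v) (Real.sqrt η) hr0 hr1
    · rw [hr]
      exact hq
    · rw [hr]
      have e : (1 - a - (1 - v)) ^ 2 = (a - v) ^ 2 := by ring
      rw [e]
      exact hmk.trans hsq
  have hfin : (g0 - δ) * a ≤ ∫ y, g y ∂μ := by
    rw [ha, ← integral_const_mul]
    apply integral_mono
    · exact ifm.const_mul _
    · exact BMP_int _ g hg
    · exact hB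
  refine le_trans ?_ hfin
  apply mul_le_mul_of_nonneg_left _ (by linarith)
  linarith

end Pool.Agent.HL
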