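import Pool.Agent.helper4.HL.Spec

/-!
# HL, module IVM: integrals along the orbit
-/

open scoped BigOperators ComplexOrder ComplexConjugate Topology

namespace Pool.Agent.HL

open Pool.Agent.helper86.CM Pool.Agent.QS Filter MeasureTheory

theorem IVM_cont (n : Lat 1) : Continuous (fun y : T2 => chr n y) :=
  (UnitAddTorus.mFourier n).continuous

theorem IVM_int (μ : Measure T2) [IsFiniteMeasure μ] (f : T2 → ℂ) (hf : Continuous f) :
    Integrable f μ :=
  hf.integrable_of_hasCompactSupport (HasCompactSupport.of_compactSpace f)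

theorem IVM_mul (n m : Lat 1) (y : T2) : chr n y * conj (chr m y) = chr (n - m) y := by
  unfold chr
  rw [sub_eq_add_neg, UnitAddTorus.mFourier_add, UnitAddTorus.mFourier_neg]

theorem IVM_exp (μ : Measure T2) [IsFiniteMeasure μ] (S : Finset (Lat 1)) (p : Lat 1 → ℂ)
    (a : Lat 1 → Lat 1) :
    ((∫ y, ‖∑ n ∈ S, p n * chr (a n) y‖ ^ 2 ∂μ : ℝ) : ℂ) =
      ∑ n ∈ S, ∑ m ∈ S, p n * conj (p m) * ∫ y, chr (a n - a m) y ∂μ := by
  rw [← integral_complex_ofReal]
  have h1 : ∀ y : T2, (((‖∑ n ∈ S, p n * chr (a n) y‖ ^ 2 : ℝ)) : ℂ) =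
      ∑ n ∈ S, ∑ m ∈ S, p n * conj (p m) * chr (a n - a m) y := by
    intro y
    rw [Complex.ofReal_pow, ← Complex.mul_conj', map_sum, Finset.sum_mul_sum]
    refine Finset.sum_congr rfl fun n _ => Finset.sum_congr rfl fun m _ => ?_
    rw [← IVM_mul, map_mul]
    ring
  simp only [h1]
  rw [integral_finsetSum]
  · refine Finset.sum_congr rfl fun n _ => ?_
    rw [integral_finsetSum]
    · refine Finset.sum_congr rfl fun m _ => ?_
      rw [integral_const_mul]
    · intro m _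
      exact IVM_int _ _ (continuous_const.mul (IVM_cont _))
  · intro n _
    exact IVM_int _ _ (continuous_finsetSum _ fun m _ => continuous_const.mul (IVM_cont _))

theorem IVM_inv (B : Lat 1 ≃ₗ[ℤ] Lat 1) (μ : Measure T2)
    (h : ∀ n, ∫ y, chr (B n) y ∂μ = ∫ y, chr n y ∂μ) (s : ℕ) (n : Lat 1) :
    ∫ y, chr (pw B (s : ℤ) n) y ∂μ = ∫ y, chr n y ∂μ := by
  induction s with
  | zero => simp
  | succ s ih =>
    rw [Nat.cast_succ, pw_succ, h, ih]

theorem IVM : IVM_stmt := by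
  intro B μ hμ h S p s
  have e1 := IVM_exp μ S p (fun n => pw B (s : ℤ) n)
  have e2 := IVM_exp μ S p (fun n => n)
  have e3 : ((∫ y, ‖∑ n ∈ S, p n * chr (pw B (s : ℤ) n) y‖ ^ 2 ∂μ : ℝ) : ℂ) =
      ((∫ y, ‖∑ n ∈ S, p n * chr n y‖ ^ 2 ∂μ : ℝ) : ℂ) := by
    rw [e1, e2]
    refine Finset.sum_congr rfl fun n _ => Finset.sum_congr rfl fun m _ => ?_
    rw [← map_sub, IVM_inv B μ h]
  exact_mod_cast e3

end Pool.Agent.HL
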